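import Pool.Agent.Q229.BD.Defs

/-!
# Broadcast dimension: basic facts
-/

set_option autoImplicit false

namespace Q229.BD

variable {V : Type}

theorem one_resolving (G : SimpleGraph V) : ResolvingBroadcast G (fun _ => 1) := by
  intro x y hxy
  refine ⟨x, Nat.one_pos, ?_⟩
  unfold truncDist
  rw [SimpleGraph.edist_self]
  intro h
  have h1 : G.edist y x ≠ 0 := by
    rw [Ne, SimpleGraph.edist_eq_zero_iff]
    exact hxy.symm
  have h2 : (0 : ℕ∞) = min (G.edist y x) (1 + 1) := by
    rw [← min_eq_left (zero_le : (0 : ℕ∞) ≤ 1 + 1)]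
    simpa using h
  rcases le_total (G.edist y x) (1 + 1) with h3 | h3
  · rw [min_eq_left h3] at h2
    exact h1 h2.symm
  · rw [min_eq_right h3] at h2
    rw [one_add_one_eq_two] at h2
    exact two_ne_zero h2.symm

theorem bdim_le_iff [Fintype V] (G : SimpleGraph V) (k : ℕ) :
    bdim G ≤ k ↔ ∃ f : V → ℕ, ResolvingBroadcast G f ∧ ∑ v, f v ≤ k := by
  constructor
  · intro h
    obtain ⟨f, hf, hs⟩ := Nat.sInf_mem (s := {s | ∃ f : V → ℕ, ResolvingBroadcast G f ∧
      ∑ v, f v = s}) ⟨_, _, one_resolving G, rfl⟩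
    exact ⟨f, hf, hs.le.trans h⟩
  · rintro ⟨f, hf, hs⟩
    exact le_trans (Nat.sInf_le (show ∑ v, f v ∈ {s | ∃ f : V → ℕ, ResolvingBroadcast G f ∧
      ∑ v, f v = s} from ⟨f, hf, rfl⟩)) hs

theorem edist_iso {W : Type} {G : SimpleGraph V} {H : SimpleGraph W} (e : G ≃g H) (x y : V) :
    H.edist (e x) (e y) = G.edist x y := by
  apply le_antisymm
  · unfold SimpleGraph.edist
    refine le_iInf fun w => ?_
    refine (iInf_le _ (w.map e.toHom)).trans ?_
    simp
  · unfold SimpleGraph.edist
    refine le_iInf fun w => ?_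
    have w' := w.map e.symm.toHom
    refine (iInf_le _ ((w.map e.symm.toHom).copy (e.symm_apply_apply x)
      (e.symm_apply_apply y))).trans ?_
    simp

theorem resolving_iso {W : Type} {G : SimpleGraph V} {H : SimpleGraph W} (e : G ≃g H) (f : V → ℕ)
    (hf : ResolvingBroadcast G f) : ResolvingBroadcast H (fun w => f (e.symm w)) := by
  intro x y hxy
  obtain ⟨z, hz, h⟩ := hf (e.symm x) (e.symm y) (fun h => hxy (e.symm.injective h))
  refine ⟨e z, by simpa using hz, ?_⟩
  simp only [RelIso.symm_apply_apply]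
  unfold truncDist at h ⊢
  rwa [← edist_iso e, ← edist_iso e, RelIso.apply_symm_apply, RelIso.apply_symm_apply] at h

theorem bdim_iso {W : Type} [Fintype V] [Fintype W] {G : SimpleGraph V} {H : SimpleGraph W}
    (e : G ≃g H) (k : ℕ) : bdim G ≤ k ↔ bdim H ≤ k := by
  rw [bdim_le_iff, bdim_le_iff]
  constructor
  · rintro ⟨f, hf, hs⟩
    refine ⟨_, resolving_iso e f hf, ?_⟩
    rw [← Equiv.sum_comp e.toEquiv]
    simpa using hs
  · rintro ⟨f, hf, hs⟩
    refine ⟨_, resolving_iso e.symm f hf, ?_⟩
    rw [← Equiv.sum_comp e.symm.toEquiv]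
    simpa using hs

/-- In a graph with a vertex adjacent to all others, `z` separates `x` and `y`. -/
theorem trunc_ne_iff {G : SimpleGraph V} {w : V} (hw : ∀ v, v ≠ w → G.Adj w v) {k : ℕ} (hk : 0 < k)
    (x y z : V) : truncDist G k x z ≠ truncDist G k y z ↔
      ¬ ((x = z ↔ y = z) ∧ (G.Adj x z ↔ G.Adj y z)) := by
  classical
  have key : ∀ x, truncDist G k x z = if x = z then 0 else if G.Adj x z then 1 else 2 := by
    intro x
    have h2 : G.edist x z ≤ 2 := by
      by_cases hx : x = w
      · by_cases hz : z = w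
        · subst hx hz; simp
        · subst hx
          rw [SimpleGraph.edist_eq_one_iff_adj.2 (hw z hz)]
          exact one_le_two
      · by_cases hz : z = w
        · subst hz
          rw [SimpleGraph.edist_eq_one_iff_adj.2 (hw x hx).symm]
          exact one_le_two
        · refine (SimpleGraph.Walk.edist_le (SimpleGraph.Walk.cons (hw x hx).symm
            (SimpleGraph.Walk.cons (hw z hz) SimpleGraph.Walk.nil))).trans ?_
          simp
    have h3 : truncDist G k x z = G.edist x z := by
      unfold truncDist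
      refine min_eq_left (h2.trans ?_)
      have : (1 : ℕ∞) ≤ k := by exact_mod_cast hk
      calc (2 : ℕ∞) = 1 + 1 := by norm_num
        _ ≤ k + 1 := by gcongr
    rw [h3]
    by_cases h4 : x = z
    · simp [h4]
    · by_cases h5 : G.Adj x z
      · rw [if_neg h4, if_pos h5, SimpleGraph.edist_eq_one_iff_adj.2 h5]
      · rw [if_neg h4, if_neg h5]
        have h6 : G.edist x z ≠ 0 := by rwa [Ne, SimpleGraph.edist_eq_zero_iff]
        have h7 : G.edist x z ≠ 1 := by rwa [Ne, SimpleGraph.edist_eq_one_iff_adj]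
        have h8 : G.edist x z ≠ ⊤ := ne_top_of_le_ne_top (by simp) h2
        obtain ⟨n, hn⟩ := ENat.ne_top_iff_exists.1 h8
        rw [← hn] at h2 h6 h7 ⊢
        norm_cast at h2 h6 h7 ⊢
        omega
  rw [key x, key y]
  by_cases h1 : x = z <;> by_cases h2 : y = z <;> by_cases h3 : G.Adj x z <;>
    by_cases h4 : G.Adj y z <;> simp [h1, h2, h3, h4]

end Q229.BD
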