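import Pool.Agent.H622R2.MatGraph
import Pool.Agent.NPC.Defs

/-!
# Broadcast dimension: definitions
-/

set_option autoImplicit false

namespace Q229.BD

open Pool.Agent.H622R2

/-- The truncated distance `d_k(x, y) = min {d(x, y), k + 1}`; the distance is `∞` when `x` and `y`
lie in different components. -/
noncomputable def truncDist {V : Type} (G : SimpleGraph V) (k : ℕ) (x y : V) : ℕ∞ :=
  min (G.edist x y) (k + 1)

/-- `f` is a resolving broadcast of `G`: for every two distinct vertices `x`, `y` there is a vertex
`z` with `f z = i > 0` and `d_i(x, z) ≠ d_i(y, z)`. -/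
def ResolvingBroadcast {V : Type} (G : SimpleGraph V) (f : V → ℕ) : Prop :=
  ∀ x y, x ≠ y → ∃ z, 0 < f z ∧ truncDist G (f z) x z ≠ truncDist G (f z) y z

/-- The broadcast dimension: the least value of `∑ v, f v` for a resolving broadcast `f`. -/
noncomputable def bdim {V : Type} [Fintype V] (G : SimpleGraph V) : ℕ :=
  sInf {s | ∃ f : V → ℕ, ResolvingBroadcast G f ∧ ∑ v, f v = s}

/-- The decision problem: given (the adjacency matrix `M` of) a graph and a number `k`, is the
broadcast dimension of the graph at most `k`? -/
def BDIM (I : List (List Bool) × ℕ) : Prop := bdim (matGraph I.1) ≤ I.2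

end Q229.BD
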