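import Pool.Agent.Q229.BD.Basic
import Pool.Agent.Q229.X3

/-!
# Computing the broadcast dimension is NP-hard: the reduction
-/

set_option autoImplicit false

namespace Q229.BD

open Pool.Agent.NPC Pool.Agent.NPC.H632 Pool.Agent.H622R2

/-- labels of vertices -/
abbrev Lab : Type := ℕ × ℕ × ℕ

/-- Adjacency, in one direction.  `(0, 0, 0)` is adjacent to everything; `(1, t, 0)` stands for a
triple, `(2, u, 0)` and `(2, u, 1)` for an element, `(3, t, s)` and `(4, u, s)` are the twins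
attached to a triple and to an element. -/
def adjL (S : List (ℕ × ℕ × ℕ)) (x y : Lab) : Bool :=
  (decide (x.1 = 0) && !decide (y.1 = 0)) ||
  ((decide (x.1 = 1) && decide (y.1 = 2) && decide (y.2.2 = 0) &&
    decide (y.2.1 ∈ el (S.getD x.2.1 (0, 0, 0)))) ||
  ((decide (x.1 = 1) && decide (y.1 = 3) && decide (x.2.1 = y.2.1)) ||
  ((decide (x.1 = 2) && decide (y.1 = 4) && decide (x.2.1 = y.2.1)) ||
  ((decide (x.1 = 3) && decide (y.1 = 3) && !decide (x.2.1 = y.2.1)) ||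
  ((decide (x.1 = 4) && decide (y.1 = 4) && !decide (x.2.1 = y.2.1)) ||
  (decide (x.1 = 3) && decide (y.1 = 4)))))))

/-- The vertices. -/
abbrev Vt (q m : ℕ) : Type :=
  Unit ⊕ (Fin m ⊕ ((Fin (3 * q) × Fin 2) ⊕ ((Fin m × Fin 2) ⊕ (Fin (3 * q) × Fin 2))))

/-- The label of a vertex. -/
def lab (q m : ℕ) : Vt q m → Lab
  | Sum.inl _ => (0, 0, 0)
  | Sum.inr (Sum.inl t) => (1, t, 0)
  | Sum.inr (Sum.inr (Sum.inl p)) => (2, p.1, p.2)
  | Sum.inr (Sum.inr (Sum.inr (Sum.inl p))) => (3, p.1, p.2)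
  | Sum.inr (Sum.inr (Sum.inr (Sum.inr p))) => (4, p.1, p.2)

theorem lab_injective (q m : ℕ) : Function.Injective (lab q m) := by
  rintro (_ | t | ⟨u, s⟩ | ⟨t, s⟩ | ⟨u, s⟩) (_ | t' | ⟨u', s'⟩ | ⟨t', s'⟩ | ⟨u', s'⟩) h <;>
    simp only [lab, Prod.mk.injEq, false_and, zero_ne_one, one_ne_zero,
      OfNat.ofNat_ne_zero, OfNat.zero_ne_ofNat, OfNat.ofNat_ne_one, OfNat.one_ne_ofNat,
      Nat.reduceEqDiff, true_and, and_true] at h
  · rfl
  · rw [Fin.ext h]
  · rw [Fin.ext h.1, Fin.ext h.2]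
  · rw [Fin.ext h.1, Fin.ext h.2]
  · rw [Fin.ext h.1, Fin.ext h.2]

theorem adjL_irrefl (S : List (ℕ × ℕ × ℕ)) (x : Lab) : adjL S x x = false := by
  unfold adjL
  rcases x with ⟨a, b, c⟩
  simp only [decide_true, Bool.not_true, Bool.and_false, Bool.false_or]
  simp only [Bool.or_eq_false_iff, Bool.and_eq_false_iff, decide_eq_false_iff_not,
    Bool.not_eq_false', decide_eq_true_eq]
  omega

/-- The graph. -/
def Gr (S : List (ℕ × ℕ × ℕ)) (q : ℕ) : SimpleGraph (Vt q S.length) where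
  Adj x y := adjL S (lab _ _ x) (lab _ _ y) = true ∨ adjL S (lab _ _ y) (lab _ _ x) = true
  symm := ⟨fun _ _ h => h.symm⟩
  loopless := ⟨fun x h => by simp [adjL_irrefl] at h⟩

variable (S : List (ℕ × ℕ × ℕ)) (q : ℕ)

/-- the universal vertex -/
abbrev ww {q m : ℕ} : Vt q m := Sum.inl ()
/-- triple -/
abbrev tr {q m : ℕ} (t : Fin m) : Vt q m := Sum.inr (Sum.inl t)
/-- element -/
abbrev ab {q m : ℕ} (u : Fin (3 * q)) (s : Fin 2) : Vt q m := Sum.inr (Sum.inr (Sum.inl (u, s)))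
/-- twins of a triple -/
abbrev tt {q m : ℕ} (t : Fin m) (s : Fin 2) : Vt q m := Sum.inr (Sum.inr (Sum.inr (Sum.inl (t, s))))
/-- twins of an element -/
abbrev tu {q m : ℕ} (u : Fin (3 * q)) (s : Fin 2) : Vt q m :=
  Sum.inr (Sum.inr (Sum.inr (Sum.inr (u, s))))

theorem w_adj (v : Vt q S.length) (hv : v ≠ ww) : (Gr S q).Adj ww v := by
  rcases v with _ | t | ⟨u, s⟩ | ⟨t, s⟩ | ⟨u, s⟩
  · exact absurd rfl hv
  all_goals simp [Gr, adjL, lab]

theorem a1 (t t') : ¬ (Gr S q).Adj (tr t) (tr t') := by simp [Gr, adjL, lab]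
theorem a2 (t u s) : (Gr S q).Adj (tr t) (ab u s) ↔ s = 0 ∧ u.1 ∈ el S[t] := by
  simp [Gr, adjL, lab]
theorem a3 (t t' s) : (Gr S q).Adj (tr t) (tt t' s) ↔ t = t' := by
  rw [Fin.ext_iff]
  simp [Gr, adjL, lab]
theorem a4 (t u s) : ¬ (Gr S q).Adj (tr t) (tu u s) := by simp [Gr, adjL, lab]
theorem a5 (u s u' s') : ¬ (Gr S q).Adj (ab u s) (ab u' s') := by simp [Gr, adjL, lab]
theorem a6 (u s t s') : ¬ (Gr S q).Adj (ab u s) (tt t s') := by simp [Gr, adjL, lab]
theorem a7 (u s u' s') : (Gr S q).Adj (ab u s) (tu u' s') ↔ u = u' := by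
  rw [Fin.ext_iff]
  simp [Gr, adjL, lab]
theorem a8 (t s t' s') : (Gr S q).Adj (tt t s) (tt t' s') ↔ t ≠ t' := by
  rw [Ne, Fin.ext_iff]
  simp [Gr, adjL, lab]
  omega
theorem a9 (t s u s') : (Gr S q).Adj (tt t s) (tu u s') := by simp [Gr, adjL, lab]
theorem a10 (u s u' s') : (Gr S q).Adj (tu u s) (tu u' s') ↔ u ≠ u' := by
  rw [Ne, Fin.ext_iff]
  simp [Gr, adjL, lab]
  omega
theorem b2 (t u s) : (Gr S q).Adj (ab u s) (tr t) ↔ s = 0 ∧ u.1 ∈ el S[t] := by
  rw [(Gr S q).adj_comm, a2]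
theorem b3 (t t' s) : (Gr S q).Adj (tt t' s) (tr t) ↔ t = t' := by rw [(Gr S q).adj_comm, a3]
theorem b4 (t u s) : ¬ (Gr S q).Adj (tu u s) (tr t) := by
  rw [(Gr S q).adj_comm]; exact a4 S q _ _ _
theorem b6 (u s t s') : ¬ (Gr S q).Adj (tt t s') (ab u s) := by
  rw [(Gr S q).adj_comm]; exact a6 S q _ _ _ _
theorem b7 (u s u' s') : (Gr S q).Adj (tu u' s') (ab u s) ↔ u = u' := by
  rw [(Gr S q).adj_comm, a7]
theorem b9 (t s u s') : (Gr S q).Adj (tu u s') (tt t s) := (a9 S q t s u s').symm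
theorem c1 (t) : (Gr S q).Adj ww (tr t) := w_adj S q _ (by simp)
theorem c2 (u s) : (Gr S q).Adj ww (ab u s) := w_adj S q _ (by simp)
theorem c3 (t s) : (Gr S q).Adj ww (tt t s) := w_adj S q _ (by simp)
theorem c4 (u s) : (Gr S q).Adj ww (tu u s) := w_adj S q _ (by simp)

/-- `z` separates `x` and `y`. -/
def Sp (x y z : Vt q S.length) : Prop :=
  ¬ ((x = z ↔ y = z) ∧ ((Gr S q).Adj x z ↔ (Gr S q).Adj y z))

theorem sp_symm {x y z : Vt q S.length} (h : Sp S q x y z) : Sp S q y x z := by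
  intro h'
  exact h ⟨h'.1.symm, h'.2.symm⟩

theorem resolving_iff (f : Vt q S.length → ℕ) : ResolvingBroadcast (Gr S q) f ↔
    ∀ x y, x ≠ y → ∃ z, 0 < f z ∧ Sp S q x y z := by
  unfold ResolvingBroadcast
  refine forall_congr' fun x => forall_congr' fun y => imp_congr_right fun _ =>
    exists_congr fun z => and_congr_right fun hz => ?_
  rw [trunc_ne_iff (w_adj S q) hz]
  rfl

theorem sound (h : X3Ok (S, q)) (hb : bdim (Gr S q) ≤ S.length + 3 * q + q) : X3C (S, q) := by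
  classical
  rw [bdim_le_iff] at hb
  obtain ⟨f, hf, hs⟩ := hb
  rw [resolving_iff] at hf
  rw [x3c_iff h]
  let D : Finset (Vt q S.length) := Finset.univ.filter fun z => 0 < f z
  have hD : D.card ≤ S.length + 3 * q + q := by
    refine le_trans ?_ hs
    rw [Finset.card_eq_sum_ones]
    calc ∑ z ∈ D, 1 ≤ ∑ z ∈ D, f z := Finset.sum_le_sum fun z hz => (Finset.mem_filter.1 hz).2
      _ ≤ ∑ z, f z := Finset.sum_le_sum_of_subset (Finset.subset_univ _)
  have hmem : ∀ z, z ∈ D ↔ 0 < f z := fun z => by simp [D]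
  -- the twins
  have htt : ∀ t : Fin S.length, ∃ s : Fin 2, tt t s ∈ D := by
    intro t
    obtain ⟨z, hz, hz'⟩ := hf (tt t 0) (tt t 1) (by simp)
    rw [← hmem] at hz
    by_contra hcon
    push Not at hcon
    apply hz'
    rcases z with _ | t' | ⟨u', s'⟩ | ⟨t', s'⟩ | ⟨u', s'⟩
    · have h1 := c3 S q t 0
      have h2 := c3 S q t 1
      exact ⟨by simp, by simp [h1.symm, h2.symm]⟩
    · exact ⟨by simp, by rw [b3, b3]⟩
    · exact ⟨by simp, by simp [b6]⟩
    · by_cases ht : t = t'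
      · subst ht
        exact absurd hz (hcon _)
      · exact ⟨by simp [ht], by rw [a8, a8]⟩
    · exact ⟨by simp, by simp [a9]⟩
  have htu : ∀ u : Fin (3 * q), ∃ s : Fin 2, tu u s ∈ D := by
    intro t
    obtain ⟨z, hz, hz'⟩ := hf (tu t 0) (tu t 1) (by simp)
    rw [← hmem] at hz
    by_contra hcon
    push Not at hcon
    apply hz'
    rcases z with _ | t' | ⟨u', s'⟩ | ⟨t', s'⟩ | ⟨u', s'⟩
    · have h1 := c4 S q t 0
      have h2 := c4 S q t 1
      exact ⟨by simp, by simp [h1.symm, h2.symm]⟩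
    · exact ⟨by simp, by simp [b4]⟩
    · exact ⟨by simp, by rw [b7, b7]⟩
    · exact ⟨by simp, by simp [b9]⟩
    · by_cases ht : t = u'
      · subst ht
        exact absurd hz (hcon _)
      · exact ⟨by simp [ht], by rw [a10, a10]⟩
  choose st hst using htt
  choose su hsu using htu
  -- the core
  let core : Vt q S.length → Prop := fun z => (∃ t, z = tr t) ∨ ∃ u s, z = ab u s
  let C : Finset (Vt q S.length) := D.filter core
  have hC : C.card ≤ q := by
    have h1 : C ∪ ((Finset.univ.image fun t => (tt t (st t) : Vt q S.length)) ∪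
        (Finset.univ.image fun u => (tu u (su u) : Vt q S.length))) ⊆ D := by
      intro x hx
      rcases Finset.mem_union.1 hx with hx | hx
      · exact (Finset.mem_filter.1 hx).1
      rcases Finset.mem_union.1 hx with hx | hx
      · simp only [Finset.mem_image, Finset.mem_univ, true_and] at hx
        obtain ⟨t, rfl⟩ := hx
        exact hst t
      · simp only [Finset.mem_image, Finset.mem_univ, true_and] at hx
        obtain ⟨t, rfl⟩ := hx
        exact hsu t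
    have h2 := Finset.card_le_card h1
    rw [Finset.card_union_of_disjoint, Finset.card_union_of_disjoint,
      Finset.card_image_of_injective, Finset.card_image_of_injective] at h2
    · simp only [Finset.card_univ, Fintype.card_fin] at h2
      omega
    · intro a b hab
      simp only [Sum.inr.injEq, Prod.mk.injEq] at hab
      exact hab.1
    · intro a b hab
      simp only [Sum.inr.injEq, Sum.inl.injEq, Prod.mk.injEq] at hab
      exact hab.1
    · rw [Finset.disjoint_left]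
      intro x hx hx'
      simp only [Finset.mem_image, Finset.mem_univ, true_and] at hx hx'
      obtain ⟨i, rfl⟩ := hx
      obtain ⟨i', hi'⟩ := hx'
      exact absurd hi' (by simp)
    · rw [Finset.disjoint_left]
      intro x hx hx'
      have hx2 := (Finset.mem_filter.1 hx).2
      simp only [Finset.mem_union, Finset.mem_image, Finset.mem_univ, true_and] at hx'
      rcases hx2 with ⟨t, rfl⟩ | ⟨u, s, rfl⟩
      · rcases hx' with ⟨i, hi⟩ | ⟨i, hi⟩ <;> exact absurd hi (by simp)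
      · rcases hx' with ⟨i, hi⟩ | ⟨i, hi⟩ <;> exact absurd hi (by simp)
  -- a triple for every core vertex
  have hg : ∀ z : Vt q S.length, ∃ t : Fin S.length, ∀ u : Fin (3 * q),
      core z → Sp S q (ab u 0) (ab u 1) z → u.1 ∈ el S[t] := by
    have hm : 0 < S.length := lt_of_lt_of_le h.pos h.le
    rintro (_ | t' | ⟨u', s'⟩ | ⟨t', s'⟩ | ⟨u', s'⟩)
    · exact ⟨⟨0, hm⟩, fun u hc => by simp [core] at hc⟩
    · refine ⟨t', fun u _ hsp => ?_⟩
      by_contra hcon
      apply hsp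
      refine ⟨by simp, ?_⟩
      rw [b2, b2]
      simp only [Fin.isValue, true_and, one_ne_zero, false_and, iff_false]
      exact hcon
    · obtain ⟨t, ht, het⟩ := h.occ u'.1 u'.2
      obtain ⟨n, hn, rfl⟩ := List.getElem_of_mem ht
      refine ⟨⟨n, hn⟩, fun u _ hsp => ?_⟩
      by_cases huu : u = u'
      · subst huu
        exact het
      · exact absurd ⟨by simp [huu], by simp [a5]⟩ hsp
    · exact ⟨⟨0, hm⟩, fun u hc => by simp [core] at hc⟩
    · exact ⟨⟨0, hm⟩, fun u hc => by simp [core] at hc⟩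
  choose g hg using hg
  have hcov : ∀ e < 3 * q, ∃ z ∈ C, e ∈ el S[g z] := by
    intro e he
    obtain ⟨z, hz, hz'⟩ := hf (ab ⟨e, he⟩ 0) (ab ⟨e, he⟩ 1) (by simp)
    rw [← hmem] at hz
    have hcz : core z := by
      rcases z with _ | t' | ⟨u', s'⟩ | ⟨t', s'⟩ | ⟨u', s'⟩
      · exfalso
        apply hz'
        have h1 := (c2 S q ⟨e, he⟩ 0).symm
        have h2 := (c2 S q ⟨e, he⟩ 1).symm
        exact ⟨by simp, by simp [h1, h2]⟩
      · exact Or.inl ⟨_, rfl⟩
      · exact Or.inr ⟨_, _, rfl⟩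
      · exact absurd ⟨by simp, by simp [a6]⟩ hz'
      · exact absurd ⟨by simp, by rw [a7, a7]⟩ hz'
    exact ⟨z, Finset.mem_filter.2 ⟨hz, hcz⟩, hg z ⟨e, he⟩ hcz hz'⟩
  obtain ⟨z0, hz0, -⟩ := hcov 0 (by have := h.pos; simp only at this; omega)
  let l := C.toList
  have hl : l.length ≤ q := by simpa [l] using hC
  refine ⟨fun i => g (l.getD i.1 z0), fun e he => ?_⟩
  obtain ⟨z, hz, hez⟩ := hcov e he
  obtain ⟨n, hn, hn'⟩ := List.getElem_of_mem (Finset.mem_toList.2 hz)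
  refine ⟨⟨n, lt_of_lt_of_le hn hl⟩, ?_⟩
  have h5 : l.getD n z0 = z := by
    rw [List.getD_eq_getElem?_getD, List.getElem?_eq_getElem hn]
    exact hn'
  simp only [h5]
  exact hez

theorem complete (h : X3Ok (S, q)) (hx : X3C (S, q)) :
    bdim (Gr S q) ≤ S.length + 3 * q + q := by
  classical
  rw [x3c_iff h] at hx
  obtain ⟨c, hc⟩ := hx
  have hm : 0 < S.length := lt_of_lt_of_le h.pos h.le
  have hq : 0 < q := h.pos
  let ch : Vt q S.length → Prop := fun z =>
    (∃ i, z = tr (c i)) ∨ (∃ t, z = tt t 0) ∨ ∃ u, z = tu u 0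
  rw [bdim_le_iff]
  refine ⟨fun z => if ch z then 1 else 0, ?_, ?_⟩
  · rw [resolving_iff]
    suffices H : ∀ x y, x ≠ y → ∃ z, ch z ∧ Sp S q x y z by
      intro x y hxy
      obtain ⟨z, hz, hz'⟩ := H x y hxy
      exact ⟨z, by simp [hz], hz'⟩
    have hsy : ∀ x y, (∃ z, ch z ∧ Sp S q x y z) → ∃ z, ch z ∧ Sp S q y x z := by
      rintro x y ⟨z, hz, hz'⟩
      exact ⟨z, hz, sp_symm S q hz'⟩
    have htt : ∀ t, ch (tt t 0) := fun t => Or.inr (Or.inl ⟨t, rfl⟩)
    have htu : ∀ u, ch (tu u 0) := fun u => Or.inr (Or.inr ⟨u, rfl⟩)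
    have hself : ∀ x y, x ≠ y → ch x → ∃ z, ch z ∧ Sp S q x y z := by
      intro x y hxy hx
      refine ⟨x, hx, fun hh => ?_⟩
      exact hxy (hh.1.1 rfl).symm
    have hne : ∀ u : Fin (3 * q), ∃ u' : Fin (3 * q), u' ≠ u := by
      intro u
      by_cases h0 : u.1 = 0
      · exact ⟨⟨1, by omega⟩, fun h => by rw [← h] at h0; simp at h0⟩
      · exact ⟨⟨0, by omega⟩, fun h => by rw [← h] at h0; simp at h0⟩
    have hfin2 : ∀ s : Fin 2, s = 0 ∨ s = 1 := by decide
    let u0 : Fin (3 * q) := ⟨0, by omega⟩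
    let t0 : Fin S.length := ⟨0, hm⟩
    have W1 : ∀ t, ∃ z, ch z ∧ Sp S q ww (tr t) z := fun t =>
      ⟨tu u0 0, htu _, fun hh => b4 S q t u0 0 ((hh.2.1 (c4 S q _ _)).symm)⟩
    have W2 : ∀ u s, ∃ z, ch z ∧ Sp S q ww (ab u s) z := fun u s =>
      ⟨tt t0 0, htt _, fun hh => a6 S q _ _ _ _ (hh.2.1 (c3 S q _ _))⟩
    have W3 : ∀ t s, ∃ z, ch z ∧ Sp S q ww (tt t s) z := by
      intro t s
      rcases hfin2 s with rfl | rfl
      · exact hsy _ _ (hself _ _ (by simp) (htt t))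
      · exact ⟨tt t 0, htt _, fun hh => (a8 S q _ _ _ _).1 (hh.2.1 (c3 S q _ _)) rfl⟩
    have W4 : ∀ u s, ∃ z, ch z ∧ Sp S q ww (tu u s) z := by
      intro t s
      rcases hfin2 s with rfl | rfl
      · exact hsy _ _ (hself _ _ (by simp) (htu t))
      · exact ⟨tu t 0, htu _, fun hh => (a10 S q _ _ _ _).1 (hh.2.1 (c4 S q _ _)) rfl⟩
    have T1 : ∀ t t', t ≠ t' → ∃ z, ch z ∧ Sp S q (tr t) (tr t') z := fun t t' hn =>
      ⟨tt t 0, htt _, fun hh => hn ((a3 S q _ _ _).1 (hh.2.1 ((a3 S q _ _ _).2 rfl))).symm⟩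
    have T2 : ∀ t u s, ∃ z, ch z ∧ Sp S q (tr t) (ab u s) z := fun t u s =>
      ⟨tt t 0, htt _, fun hh => a6 S q _ _ _ _ (hh.2.1 ((a3 S q _ _ _).2 rfl))⟩
    have T3 : ∀ t t' s, ∃ z, ch z ∧ Sp S q (tr t) (tt t' s) z := fun t t' s =>
      ⟨tu u0 0, htu _, fun hh => a4 S q _ _ _ (hh.2.2 (a9 S q _ _ _ _))⟩
    have T4 : ∀ t u s, ∃ z, ch z ∧ Sp S q (tr t) (tu u s) z := by
      intro t u s
      obtain ⟨u', hu'⟩ := hne u
      exact ⟨tu u' 0, htu _, fun hh => a4 S q _ _ _ (hh.2.2 ((a10 S q _ _ _ _).2 hu'.symm))⟩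
    have A1 : ∀ u s u' s', (ab u s : Vt q S.length) ≠ ab u' s' →
        ∃ z, ch z ∧ Sp S q (ab u s) (ab u' s') z := by
      intro u s u' s' hn
      by_cases huu : u = u'
      · subst huu
        obtain ⟨i, hi⟩ := hc u.1 u.2
        refine ⟨tr (c i), Or.inl ⟨i, rfl⟩, fun hh => ?_⟩
        have h2 := hh.2
        rw [b2, b2] at h2
        rcases hfin2 s with rfl | rfl <;> rcases hfin2 s' with rfl | rfl
        · exact hn rfl
        · exact absurd (h2.1 ⟨rfl, hi⟩).1 (by decide)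
        · exact absurd (h2.2 ⟨rfl, hi⟩).1 (by decide)
        · exact hn rfl
      · exact ⟨tu u 0, htu _, fun hh => huu ((a7 S q _ _ _ _).1
          (hh.2.1 ((a7 S q _ _ _ _).2 rfl))).symm⟩
    have A2 : ∀ u s t s', ∃ z, ch z ∧ Sp S q (ab u s) (tt t s') z := by
      intro u s t s'
      obtain ⟨u', hu'⟩ := hne u
      exact ⟨tu u' 0, htu _, fun hh => hu' ((a7 S q _ _ _ _).1 (hh.2.2 (a9 S q _ _ _ _))).symm⟩
    have A3 : ∀ u s u' s', ∃ z, ch z ∧ Sp S q (ab u s) (tu u' s') z := fun u s u' s' =>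
      ⟨tt t0 0, htt _, fun hh => a6 S q _ _ _ _ (hh.2.2 (b9 S q _ _ _ _))⟩
    have B1 : ∀ t s t' s', (tt t s : Vt q S.length) ≠ tt t' s' →
        ∃ z, ch z ∧ Sp S q (tt t s) (tt t' s') z := by
      intro t s t' s' hn
      rcases hfin2 s with rfl | rfl
      · exact hself _ _ hn (htt t)
      rcases hfin2 s' with rfl | rfl
      · exact hsy _ _ (hself _ _ hn.symm (htt t'))
      have htt' : t ≠ t' := fun h => hn (by rw [h])
      exact ⟨tt t 0, htt _, fun hh => (a8 S q _ _ _ _).1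
        (hh.2.2 ((a8 S q _ _ _ _).2 htt'.symm)) rfl⟩
    have B2 : ∀ t s u s', ∃ z, ch z ∧ Sp S q (tt t s) (tu u s') z := by
      intro t s u s'
      rcases hfin2 s with rfl | rfl
      · exact hself _ _ (by simp) (htt t)
      exact ⟨tt t 0, htt _, fun hh => (a8 S q _ _ _ _).1 (hh.2.2 (b9 S q _ _ _ _)) rfl⟩
    have C1 : ∀ t s t' s', (tu t s : Vt q S.length) ≠ tu t' s' →
        ∃ z, ch z ∧ Sp S q (tu t s) (tu t' s') z := by
      intro t s t' s' hn
      rcases hfin2 s with rfl | rfl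
      · exact hself _ _ hn (htu t)
      rcases hfin2 s' with rfl | rfl
      · exact hsy _ _ (hself _ _ hn.symm (htu t'))
      have htt' : t ≠ t' := fun h => hn (by rw [h])
      exact ⟨tu t 0, htu _, fun hh => (a10 S q _ _ _ _).1
        (hh.2.2 ((a10 S q _ _ _ _).2 htt'.symm)) rfl⟩
    rintro (_ | t | ⟨u, s⟩ | ⟨t, s⟩ | ⟨u, s⟩) (_ | t' | ⟨u', s'⟩ | ⟨t', s'⟩ | ⟨u', s'⟩) hxy
    · exact absurd rfl hxy
    · exact W1 _
    · exact W2 _ _
    · exact W3 _ _
    · exact W4 _ _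
    · exact hsy _ _ (W1 _)
    · exact T1 _ _ fun h => hxy (by rw [h])
    · exact T2 _ _ _
    · exact T3 _ _ _
    · exact T4 _ _ _
    · exact hsy _ _ (W2 _ _)
    · exact hsy _ _ (T2 _ _ _)
    · exact A1 _ _ _ _ hxy
    · exact A2 _ _ _ _
    · exact A3 _ _ _ _
    · exact hsy _ _ (W3 _ _)
    · exact hsy _ _ (T3 _ _ _)
    · exact hsy _ _ (A2 _ _ _ _)
    · exact B1 _ _ _ _ hxy
    · exact B2 _ _ _ _
    · exact hsy _ _ (W4 _ _)
    · exact hsy _ _ (T4 _ _ _)
    · exact hsy _ _ (A3 _ _ _ _)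
    · exact hsy _ _ (B2 _ _ _ _)
    · exact C1 _ _ _ _ hxy
  · rw [← Finset.sum_filter, ← Finset.card_eq_sum_ones]
    have h1 : (Finset.univ.filter ch) ⊆ (Finset.univ.image fun i => (tr (c i) : Vt q S.length)) ∪
        ((Finset.univ.image fun t => (tt t 0 : Vt q S.length)) ∪
        (Finset.univ.image fun u => (tu u 0 : Vt q S.length))) := by
      intro z hz
      rcases (Finset.mem_filter.1 hz).2 with ⟨i, rfl⟩ | ⟨i, rfl⟩ | ⟨i, rfl⟩
      · simp
      · simp
      · simp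
    refine (Finset.card_le_card h1).trans ((Finset.card_union_le _ _).trans ?_)
    have h2 := Finset.card_union_le (Finset.univ.image fun t => (tt t 0 : Vt q S.length))
        (Finset.univ.image fun u => (tu u 0 : Vt q S.length))
    have h3 := Finset.card_image_le (s := (Finset.univ : Finset (Fin q)))
      (f := fun i => (tr (c i) : Vt q S.length))
    have h4 := Finset.card_image_le (s := (Finset.univ : Finset (Fin S.length)))
      (f := fun t => (tt t 0 : Vt q S.length))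
    have h5 := Finset.card_image_le (s := (Finset.univ : Finset (Fin (3 * q))))
      (f := fun u => (tu u 0 : Vt q S.length))
    simp only [Finset.card_univ, Fintype.card_fin] at h3 h4 h5
    calc _ ≤ q + (S.length + 3 * q) := add_le_add h3 (h2.trans (add_le_add h4 h5))
      _ = S.length + 3 * q + q := by ring

/-- The list of labels. -/
def vs (I : List (ℕ × ℕ × ℕ) × ℕ) : List Lab :=
  block 0 1 1 ++ (block 1 I.1.length 1 ++ (block 2 (3 * min I.2 I.1.length) 2 ++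
  (block 3 I.1.length 2 ++ (block 4 (3 * min I.2 I.1.length) 2 ++ []))))

/-- The reduction. -/
def red (I : List (ℕ × ℕ × ℕ) × ℕ) : List (List Bool) × ℕ :=
  (mat (vs I) (adjL I.1), I.1.length + 3 * I.2 + I.2)

theorem red_poly : Poly red := by
  have hm : UPoly (fun I : List (ℕ × ℕ × ℕ) × ℕ => I.1.length) :=
    UPoly.length (Poly.fst Poly.id)
  have hq : UPoly (fun I : List (ℕ × ℕ × ℕ) × ℕ => min I.2 I.1.length) :=
    UPoly.of_le (Poly.min (Poly.snd Poly.id) hm.toPoly) hm (fun I => min_le_right _ _)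
  have h3q := (UPoly.const 3).mul hq
  have h0 : Poly vs :=
    Poly.append (block_poly 0 (UPoly.const 1) (UPoly.const 1)) (Poly.append
      (block_poly 1 hm (UPoly.const 1)) (Poly.append
      (block_poly 2 h3q (UPoly.const 2)) (Poly.append (block_poly 3 hm (UPoly.const 2))
      (Poly.append (block_poly 4 h3q (UPoly.const 2)) (pc [])))))
  have h1 : Poly (fun I : List (ℕ × ℕ × ℕ) × ℕ => mat (vs I) (adjL I.1)) := by
    refine mat_poly (adj := fun (I : List (ℕ × ℕ × ℕ) × ℕ) => adjL I.1) h0 ?_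
    unfold adjL el
    fun_prop
  refine Poly.pair h1 ?_
  fun_prop

theorem red_iso (h : X3Ok (S, q)) : Nonempty (matGraph (red (S, q)).1 ≃g Gr S q) := by
  have hq : min q S.length = q := min_eq_left h.le
  unfold red
  refine matGraph_iso _ ?_ _ _ (lab q S.length) (lab_injective _ _) ?_ ?_
  · unfold vs
    refine block_append_nodup (block_append_nodup (block_append_nodup (block_append_nodup
      (block_append_nodup List.nodup_nil ?_) ?_) ?_) ?_) ?_
    all_goals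
      intro z hz
      simp only [List.mem_append, mem_block, List.not_mem_nil, or_false] at hz <;> omega
  · intro z
    unfold vs
    simp only [hq, List.mem_append, mem_block, List.not_mem_nil, or_false]
    constructor
    · rintro (⟨h1, h2, h3⟩ | ⟨h1, h2, h3⟩ | ⟨h1, h2, h3⟩ | ⟨h1, h2, h3⟩ | ⟨h1, h2, h3⟩)
      · exact ⟨ww, Prod.ext h1.symm (Prod.ext (by simp only [lab]; omega)
          (by simp only [lab]; omega))⟩
      · exact ⟨tr ⟨_, h2⟩, Prod.ext h1.symm (Prod.ext rfl (by simp only [lab]; omega))⟩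
      · exact ⟨ab ⟨_, h2⟩ ⟨_, h3⟩, Prod.ext h1.symm rfl⟩
      · exact ⟨tt ⟨_, h2⟩ ⟨_, h3⟩, Prod.ext h1.symm rfl⟩
      · exact ⟨tu ⟨_, h2⟩ ⟨_, h3⟩, Prod.ext h1.symm rfl⟩
    · rintro ⟨x, rfl⟩
      rcases x with _ | t | ⟨u, s⟩ | ⟨t, s⟩ | ⟨u, s⟩
      · exact Or.inl ⟨rfl, by simp [lab], by simp [lab]⟩
      · exact Or.inr (Or.inl ⟨rfl, t.2, by simp [lab]⟩)
      · exact Or.inr (Or.inr (Or.inl ⟨rfl, u.2, s.2⟩))
      · exact Or.inr (Or.inr (Or.inr (Or.inl ⟨rfl, t.2, s.2⟩)))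
      · exact Or.inr (Or.inr (Or.inr (Or.inr ⟨rfl, u.2, s.2⟩)))
  · intro x y
    constructor
    · intro h
      exact ⟨h.ne, h⟩
    · exact fun h => h.2

theorem hard : HardPr (fun I : List (List Bool) × ℕ =>
    ∃ w, ∀ v, v ≠ w → (matGraph I.1).Adj w v) BDIM := by
  refine hardPr_X3.trans red_poly ?_ ?_
  · rintro ⟨S, q⟩ h
    obtain ⟨e⟩ := red_iso S q h
    refine ⟨e.symm ww, fun v hv => ?_⟩
    have h1 := w_adj S q (e v) (fun h => hv (by rw [← h, RelIso.symm_apply_apply]))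
    have := e.symm.map_adj_iff.2 h1
    rwa [RelIso.symm_apply_apply] at this
  · rintro ⟨S, q⟩ h
    obtain ⟨e⟩ := red_iso S q h
    unfold BDIM
    rw [bdim_iso e]
    exact ⟨complete S q h, sound S q h⟩

end Q229.BD
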